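import Mathlib
import Pool.Agent.DigitPowers.Block

/-! The `L¹` norm of the exponential sum over numbers with digits in `D`. -/

set_option autoImplicit false

namespace Pool.Agent.DP4

open Finset Complex Pool.Agent.DigitPowers

private noncomputable def SS (D : Finset ℕ) (q k x : ℕ) : ℂ :=
  ∑ z ∈ (range (q ^ k)).filter (fun z => lowOK D q k z),
    Complex.exp (2 * Real.pi * Complex.I * ((x * z : ℕ) : ℂ) / ((q ^ k : ℕ) : ℂ))

private lemma fa_exp_add (n : ℕ) (hn : 0 < n) (a b : ℕ) :
    Complex.exp (2 * Real.pi * Complex.I * ((a + n * b : ℕ) : ℂ) / (n : ℂ)) =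
      Complex.exp (2 * Real.pi * Complex.I * (a : ℂ) / (n : ℂ)) := by
  have hn' : (n : ℂ) ≠ 0 := by exact_mod_cast hn.ne'
  have e : 2 * Real.pi * Complex.I * ((a + n * b : ℕ) : ℂ) / (n : ℂ) =
      2 * Real.pi * Complex.I * (a : ℂ) / (n : ℂ) + (b : ℕ) * (2 * Real.pi * Complex.I) := by
    push_cast
    field_simp
  rw [e, Complex.exp_add]
  have := Complex.exp_nat_mul_two_pi_mul_I b
  rw [this, mul_one]

private lemma fa_period (D : Finset ℕ) (q k y t : ℕ) (hq : 0 < q) :
    SS D q k (y + q ^ k * t) = SS D q k y := by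
  unfold SS
  refine sum_congr rfl fun z _ => ?_
  have e : (y + q ^ k * t) * z = y * z + q ^ k * (t * z) := by ring
  rw [e]
  exact fa_exp_add (q ^ k) (pow_pos hq k) _ _

private lemma fa_succ (D : Finset ℕ) (q k x : ℕ) (hq : 0 < q) (hD : D ⊆ range q) :
    SS D q (k + 1) x = (∑ a ∈ D, Complex.exp (2 * Real.pi * Complex.I * ((x * a : ℕ) : ℂ) /
      ((q ^ (k + 1) : ℕ) : ℂ))) * SS D q k x := by
  unfold SS
  rw [sum_mul_sum, ← sum_product']
  symm
  refine sum_nbij' (fun t => t.1 + q * t.2) (fun z => (z % q, z / q)) ?_ ?_ ?_ ?_ ?_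
  · rintro ⟨a, z⟩ h
    rw [mem_product, mem_filter, mem_range] at h
    obtain ⟨ha, hz, hz2⟩ := h
    simp only at ha hz hz2 ⊢
    have ha' := mem_range.1 (hD ha)
    rw [mem_filter, mem_range]
    constructor
    · calc a + q * z < q + q * z := by omega
        _ = q * (z + 1) := by ring
        _ ≤ q * q ^ k := Nat.mul_le_mul_left _ hz
        _ = q ^ (k + 1) := by ring
    · rw [add_comm k 1, lowOK_add]
      constructor
      · intro i hi
        have : i = 0 := by omega
        subst this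
        simp [Nat.add_mul_mod_self_left, Nat.mod_eq_of_lt ha', ha]
      · rw [pow_one, Nat.add_mul_div_left _ _ hq, Nat.div_eq_of_lt ha', zero_add]
        exact hz2
  · intro z hz
    rw [mem_filter, mem_range, add_comm k 1, lowOK_add] at hz
    rw [mem_product, mem_filter, mem_range]
    refine ⟨?_, ?_, ?_⟩
    · have := hz.2.1 0 (by norm_num)
      simpa using this
    · simp only
      rw [Nat.div_lt_iff_lt_mul hq]
      have := hz.1
      rw [pow_add, pow_one, mul_comm] at this
      exact this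
    · simpa using hz.2.2
  · rintro ⟨a, z⟩ h
    rw [mem_product] at h
    have ha' := mem_range.1 (hD h.1)
    simp only at ha' ⊢
    rw [Nat.add_mul_mod_self_left, Nat.mod_eq_of_lt ha', Nat.add_mul_div_left _ _ hq,
      Nat.div_eq_of_lt ha', zero_add]
  · intro z _
    simp only
    exact Nat.mod_add_div z q
  · rintro ⟨a, z⟩ _
    simp only
    rw [← Complex.exp_add]
    congr 1
    have hq' : (q : ℂ) ≠ 0 := by exact_mod_cast hq.ne'
    push_cast
    field_simp
    ring

private lemma fa_main (D : Finset ℕ) (q : ℕ) (hq : 0 < q) (hD : D ⊆ range q) (L : ℝ)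
    (hL : ∀ θ : ℝ, ∑ t ∈ range q, ‖∑ a ∈ D, Complex.exp (2 * Real.pi * Complex.I *
      ((a : ℂ) * ((θ : ℂ) + (t : ℂ)) / (q : ℂ)))‖ ≤ L) (k : ℕ) :
    ∑ x ∈ range (q ^ k), ‖SS D q k x‖ ≤ L ^ k := by
  have hL0 : 0 ≤ L := le_trans (sum_nonneg fun _ _ => norm_nonneg _) (hL 0)
  induction k with
  | zero =>
    simp [SS, lowOK]
  | succ k ih =>
    rw [pow_succ', sum_range_mul_block, sum_comm]
    calc ∑ i ∈ range (q ^ k), ∑ s ∈ range q, ‖SS D q (k + 1) (q ^ k * s + i)‖
        ≤ ∑ i ∈ range (q ^ k), L * ‖SS D q k i‖ := by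
          refine sum_le_sum fun i _ => ?_
          have h1 : ∀ s ∈ range q, ‖SS D q (k + 1) (q ^ k * s + i)‖ =
              ‖∑ a ∈ D, Complex.exp (2 * Real.pi * Complex.I *
                ((a : ℂ) * ((((i : ℝ) / (q : ℝ) ^ k : ℝ) : ℂ) + (s : ℂ)) / (q : ℂ)))‖ *
                ‖SS D q k i‖ := by
            intro s _
            rw [fa_succ D q k _ hq hD, norm_mul]
            congr 1
            · congr 1
              refine sum_congr rfl fun a _ => ?_
              congr 1
              have hq' : (q : ℂ) ≠ 0 := by exact_mod_cast hq.ne'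
              push_cast
              field_simp
              ring
            · rw [add_comm, fa_period D q k i s hq]
          rw [sum_congr rfl h1, ← sum_mul]
          exact mul_le_mul_of_nonneg_right (hL _) (norm_nonneg _)
      _ = L * ∑ i ∈ range (q ^ k), ‖SS D q k i‖ := by rw [mul_sum]
      _ ≤ L * L ^ k := mul_le_mul_of_nonneg_left ih hL0
      _ = L ^ (k + 1) := by ring

private lemma fa_expSum (D : Finset ℕ) (q : ℕ) (hq : 0 < q) (k : ℕ) [NeZero (q ^ k)]
    (x : ZMod (q ^ k)) : expSum (q ^ k) (digitRes D q k) x = SS D q k x.val := by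
  unfold expSum SS
  refine sum_nbij' (fun z => z.val) (fun z => (z : ZMod (q ^ k))) ?_ ?_ ?_ ?_ ?_
  · intro z hz
    unfold digitRes at hz
    rw [mem_filter] at hz
    rw [mem_filter, mem_range]
    exact ⟨ZMod.val_lt z, hz.2⟩
  · intro z hz
    rw [mem_filter] at hz
    exact (mem_digitRes_natCast D q k z hq).mpr hz.2
  · intro z _
    exact ZMod.natCast_zmod_val z
  · intro z hz
    rw [mem_filter, mem_range] at hz
    exact ZMod.val_cast_of_lt hz.1
  · intro z _
    have h1 : x * z = (((x.val * z.val : ℕ) : ℤ) : ZMod (q ^ k)) := by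
      push_cast
      rw [ZMod.natCast_zmod_val, ZMod.natCast_zmod_val]
    rw [h1, ZMod.stdAddChar_coe]
    congr 1

theorem sum_expSum_le (D : Finset ℕ) (q : ℕ) (hq : 0 < q) (hD : D ⊆ range q) (L : ℝ)
    (hL : ∀ θ : ℝ, ∑ t ∈ range q, ‖∑ a ∈ D, Complex.exp (2 * Real.pi * Complex.I *
      ((a : ℂ) * ((θ : ℂ) + (t : ℂ)) / (q : ℂ)))‖ ≤ L) (k : ℕ) [NeZero (q ^ k)] :
    ∑ x : ZMod (q ^ k), ‖expSum (q ^ k) (digitRes D q k) x‖ ≤ L ^ k := by
  refine le_trans (le_of_eq ?_) (fa_main D q hq hD L hL k)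
  refine sum_nbij' (fun z => z.val) (fun z => (z : ZMod (q ^ k))) ?_ ?_ ?_ ?_ ?_
  · intro z _
    rw [mem_range]
    exact ZMod.val_lt z
  · intro z _
    exact mem_univ _
  · intro z _
    exact ZMod.natCast_zmod_val z
  · intro z hz
    rw [mem_range] at hz
    exact ZMod.val_cast_of_lt hz
  · intro z _
    rw [fa_expSum D q hq k z]

end Pool.Agent.DP4
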