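import Mathlib
import Pool.Agent.DP2.EA

/-! The fibres of `(h, x) ↦ h / x`. -/

set_option autoImplicit false

namespace Pool.Agent.DP4

open Finset Pool.Agent.DigitPowers Pool.Agent.DP2

theorem fibre_le (D : Finset ℕ) (q : ℕ) (hq : q.Prime) (k j : ℕ) (hj : j ≤ k) (y : ℕ) :
    (((Ico 1 (q ^ j)) ×ˢ good D q k).filter (fun t => t.1 ≡ y * t.2 [MOD q ^ k])).card ≤
      D.card ^ j := by
  classical
  -- valuation of `y`
  by_cases hy : q ^ j ∣ y
  · -- then `h ≡ 0 mod q^j`
    have h0 : ((Ico 1 (q ^ j)) ×ˢ good D q k).filter (fun t => t.1 ≡ y * t.2 [MOD q ^ k]) = ∅ := by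
      rw [filter_eq_empty_iff]
      rintro ⟨h, x⟩ ht hmod
      rw [mem_product, mem_Ico] at ht
      simp only at ht hmod
      have h1 : h ≡ y * x [MOD q ^ j] := hmod.of_dvd (pow_dvd_pow q hj)
      have h2 : q ^ j ∣ h := (h1.dvd_iff dvd_rfl).2 (hy.mul_right x)
      have h3 := Nat.le_of_dvd (by omega) h2
      omega
    rw [h0, card_empty]
    exact Nat.zero_le _
  -- `y = q^e * y'`, `e < j`
  have hy0 : y ≠ 0 := by
    rintro rfl
    exact hy (dvd_zero _)
  obtain ⟨e, y', hy'q, hye⟩ : ∃ e y', ¬ q ∣ y' ∧ y = q ^ e * y' :=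
    Nat.exists_eq_pow_mul_and_not_dvd hy0 q hq.ne_one
  have hej : e < j := by
    by_contra hcon
    push Not at hcon
    apply hy
    rw [hye]
    exact (pow_dvd_pow q hcon).mul_right y'
  set A := (range (q ^ (j - e))).filter (fun x => lowOK D q (j - e) x) with hA
  set B := (range (q ^ e)).filter (fun x => lowOK D q e x) with hB
  have cA : A.card ≤ D.card ^ (j - e) := card_lowOK D q hq.pos _
  have cB : B.card ≤ D.card ^ e := card_lowOK D q hq.pos _
  have key : (((Ico 1 (q ^ j)) ×ˢ good D q k).filter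
      (fun t => t.1 ≡ y * t.2 [MOD q ^ k])).card ≤ (A ×ˢ B).card := by
    refine card_le_card_of_injOn (fun t => (t.2 % q ^ (j - e), t.2 / q ^ (k - e))) ?_ ?_
    · rintro ⟨h, x⟩ ht
      rw [mem_coe, mem_filter, mem_product] at ht
      obtain ⟨⟨-, hx⟩, -⟩ := ht
      simp only [good, mem_filter, mem_range] at hx
      have s1 := low_split (a := j - e) (by omega) hx.2.1
      have s2 := low_split (a := k - e) (by omega) hx.2.1
      rw [mem_coe, mem_product, hA, hB, mem_filter, mem_filter, mem_range, mem_range]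
      refine ⟨⟨Nat.mod_lt _ (pow_pos hq.pos _), (lowOK_mod D q _ _ hq.pos).2 s1.1⟩, ?_, ?_⟩
      · simp only
        rw [Nat.div_lt_iff_lt_mul (pow_pos hq.pos _), ← pow_add, show e + (k - e) = k by omega]
        exact hx.1
      · have := s2.2
        rwa [show k - (k - e) = e by omega] at this
    · rintro ⟨h, x⟩ ht ⟨h', x'⟩ ht' heq
      rw [mem_coe, mem_filter, mem_product, mem_Ico] at ht ht'
      obtain ⟨⟨hh, hx⟩, hm⟩ := ht
      obtain ⟨⟨hh', hx'⟩, hm'⟩ := ht'
      simp only [Prod.mk.injEq] at hh hx hm hh' hx' hm' heq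
      obtain ⟨e1, e2⟩ := heq
      simp only [good, mem_filter, mem_range] at hx hx'
      -- `h = h'`
      have a1 : x ≡ x' [MOD q ^ (j - e)] := e1
      have a2 : y * x ≡ y * x' [MOD q ^ j] := by
        have a3 : q ^ e * (y' * x) ≡ q ^ e * (y' * x') [MOD q ^ e * q ^ (j - e)] :=
          Nat.ModEq.mul_left' _ (a1.mul_left y')
        rw [← pow_add, show e + (j - e) = j by omega] at a3
        rw [hye, mul_assoc, mul_assoc]
        exact a3
      have a4 : h ≡ h' [MOD q ^ j] :=
        ((hm.of_dvd (pow_dvd_pow q hj)).trans a2).trans (hm'.of_dvd (pow_dvd_pow q hj)).symm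
      have a5 : h = h' := Nat.ModEq.eq_of_lt_of_lt a4 hh.2 hh'.2
      subst a5
      -- `x ≡ x' mod q^(k-e)`
      have b1 : y * x ≡ y * x' [MOD q ^ k] := hm.symm.trans hm'
      have b2 : q ^ e * (y' * x) ≡ q ^ e * (y' * x') [MOD q ^ e * q ^ (k - e)] := by
        rw [← pow_add, show e + (k - e) = k by omega, ← mul_assoc, ← mul_assoc, ← hye]
        exact b1
      have b3 : y' * x ≡ y' * x' [MOD q ^ (k - e)] :=
        Nat.ModEq.mul_left_cancel' (pow_ne_zero _ hq.ne_zero) b2
      have b4 : x ≡ x' [MOD q ^ (k - e)] := Nat.ModEq.cancel_left_of_coprime (cop_pow hq hy'q) b3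
      have b5 : x % q ^ (k - e) = x' % q ^ (k - e) := b4
      have b6 : x = x' := by
        rw [← Nat.mod_add_div x (q ^ (k - e)), ← Nat.mod_add_div x' (q ^ (k - e)), b5, e2]
      rw [b6]
  calc _ ≤ (A ×ˢ B).card := key
    _ = A.card * B.card := card_product _ _
    _ ≤ D.card ^ (j - e) * D.card ^ e := Nat.mul_le_mul cA cB
    _ = D.card ^ j := by rw [← pow_add, show j - e + e = j by omega]

end Pool.Agent.DP4
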