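import Mathlib
import Pool.Agent.DP4.FA
import Pool.Agent.DP4.FB

/-! Counting exponents whose power has `2 r` good low digits, by the `L¹` norm. -/

set_option autoImplicit false

namespace Pool.Agent.DP4

open Finset Complex Pool.Agent.DigitPowers Pool.Agent.DP2

private theorem count_le_sum {ι : Type*} (n : ℕ) [NeZero n] (S : Finset (ZMod n)) (U : Finset ι)
    (u : ι → (ZMod n)ˣ) (y : ι → ZMod n) (H J : ℕ) (hH : 0 < H) (hJn : J ≤ n)
    (hJ : 6 * ((H - 1) * J) ≤ n) (Z : ℝ)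
    (hT : ∑ h ∈ Ico 1 H, ∑ c ∈ U,
        ‖expSum n S ((h : ZMod n) * (((u c)⁻¹ : (ZMod n)ˣ) : ZMod n))‖ ≤ Z) :
    (∑ c ∈ U, (((range J).filter (fun j : ℕ =>
      y c + (u c : ZMod n) * (j : ZMod n) ∈ S)).card : ℝ)) ≤
      4 / H * (U.card * S.card) + 8 / H * Z := by
  have hHpos : (0 : ℝ) < H := by exact_mod_cast hH
  -- per `c` bound
  have hc : ∀ c ∈ U, (((range J).filter (fun j : ℕ => y c + (u c : ZMod n) * (j : ZMod n) ∈ S)).card : ℝ) *
      ((H : ℝ) ^ 2 / 4) ≤ ∑ t ∈ range H, ∑ t' ∈ range H,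
        ‖expSum n S (((t : ZMod n) - (t' : ZMod n)) * (((u c)⁻¹ : (ZMod n)ˣ) : ZMod n))‖ := by
    intro c _
    refine le_trans ?_ (fejer_sq_expand n S H (((u c)⁻¹ : (ZMod n)ˣ) : ZMod n) (y c))
    set T := (range J).filter (fun j : ℕ => y c + (u c : ZMod n) * (j : ZMod n) ∈ S) with hT
    have hinj : Set.InjOn (fun j : ℕ => y c + (u c : ZMod n) * (j : ZMod n)) (T : Set ℕ) := by
      intro a ha b hb hab
      have ha' : a < J := by
        have := ha
        rw [hT, mem_coe, mem_filter, mem_range] at this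
        exact this.1
      have hb' : b < J := by
        have := hb
        rw [hT, mem_coe, mem_filter, mem_range] at this
        exact this.1
      have h1 : (u c : ZMod n) * (a : ZMod n) = (u c : ZMod n) * (b : ZMod n) := add_left_cancel hab
      have h2 : (a : ZMod n) = (b : ZMod n) := by
        have := congrArg (fun x => (((u c)⁻¹ : (ZMod n)ˣ) : ZMod n) * x) h1
        simpa [← mul_assoc] using this
      rw [ZMod.natCast_eq_natCast_iff'] at h2
      rwa [Nat.mod_eq_of_lt (by omega), Nat.mod_eq_of_lt (by omega)] at h2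
    have hsub : T.image (fun j : ℕ => y c + (u c : ZMod n) * (j : ZMod n)) ⊆ S := by
      intro x hx
      rw [mem_image] at hx
      obtain ⟨j, hj, rfl⟩ := hx
      rw [hT, mem_filter] at hj
      exact hj.2
    calc (T.card : ℝ) * ((H : ℝ) ^ 2 / 4) = ∑ j ∈ T, ((H : ℝ) / 2) ^ 2 := by
          rw [sum_const, nsmul_eq_mul]; ring
      _ ≤ ∑ j ∈ T, ‖∑ t ∈ range H, ZMod.stdAddChar (N := n)
            ((t : ZMod n) * ((((u c)⁻¹ : (ZMod n)ˣ) : ZMod n) *
              ((y c + (u c : ZMod n) * (j : ZMod n)) - y c)))‖ ^ 2 := by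
          refine sum_le_sum fun j hj => ?_
          have hj' : j < J := by
            rw [hT, mem_filter, mem_range] at hj
            exact hj.1
          have e1 : (((u c)⁻¹ : (ZMod n)ˣ) : ZMod n) *
              ((y c + (u c : ZMod n) * (j : ZMod n)) - y c) = (j : ZMod n) := by
            rw [add_sub_cancel_left, ← mul_assoc, Units.inv_mul, one_mul]
          rw [e1]
          exact pow_le_pow_left₀ (by positivity) (fejer_lower n H J j hJ hj') 2
      _ = ∑ z ∈ T.image (fun j : ℕ => y c + (u c : ZMod n) * (j : ZMod n)),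
            ‖∑ t ∈ range H, ZMod.stdAddChar (N := n)
            ((t : ZMod n) * ((((u c)⁻¹ : (ZMod n)ˣ) : ZMod n) * (z - y c)))‖ ^ 2 := by
          rw [sum_image hinj]
      _ ≤ _ := sum_le_sum_of_subset_of_nonneg hsub (fun _ _ _ => by positivity)
  -- fold the double sum
  have hfold : ∀ c ∈ U, ∑ t ∈ range H, ∑ t' ∈ range H,
        ‖expSum n S (((t : ZMod n) - (t' : ZMod n)) * (((u c)⁻¹ : (ZMod n)ˣ) : ZMod n))‖ ≤
      H * (S.card + 2 * ∑ h ∈ Ico 1 H,
        ‖expSum n S ((h : ZMod n) * (((u c)⁻¹ : (ZMod n)ˣ) : ZMod n))‖) := by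
    intro c _
    have : ∀ t ∈ range H, ∑ t' ∈ range H,
        ‖expSum n S (((t : ZMod n) - (t' : ZMod n)) * (((u c)⁻¹ : (ZMod n)ˣ) : ZMod n))‖ ≤
        S.card + 2 * ∑ h ∈ Ico 1 H,
        ‖expSum n S ((h : ZMod n) * (((u c)⁻¹ : (ZMod n)ˣ) : ZMod n))‖ := by
      intro t ht
      rw [mem_range] at ht
      have h1 := sum_dist_le
        (fun h => ‖expSum n S ((h : ZMod n) * (((u c)⁻¹ : (ZMod n)ˣ) : ZMod n))‖)
        (fun _ => norm_nonneg _) H t ht
      refine le_trans (le_of_eq ?_) (le_trans h1 (le_of_eq ?_))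
      · refine sum_congr rfl fun t' ht' => ?_
        by_cases hle : t' ≤ t
        · rw [if_pos hle, Nat.cast_sub hle]
        · rw [if_neg hle, Nat.cast_sub (by omega), ← norm_expSum_neg]
          congr 2
          ring
      · simp [norm_expSum_zero]
    calc _ ≤ ∑ t ∈ range H, ((S.card : ℝ) + 2 * ∑ h ∈ Ico 1 H,
        ‖expSum n S ((h : ZMod n) * (((u c)⁻¹ : (ZMod n)ˣ) : ZMod n))‖) := sum_le_sum this
      _ = _ := by rw [sum_const, card_range, nsmul_eq_mul]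
  -- sum over c
  have htot : (∑ c ∈ U, (((range J).filter (fun j : ℕ => y c + (u c : ZMod n) * (j : ZMod n) ∈ S)).card : ℝ)) *
      ((H : ℝ) ^ 2 / 4) ≤ H * (U.card * S.card) + 2 * H * ∑ h ∈ Ico 1 H, ∑ c ∈ U,
        ‖expSum n S ((h : ZMod n) * (((u c)⁻¹ : (ZMod n)ˣ) : ZMod n))‖ := by
    rw [sum_mul]
    calc _ ≤ ∑ c ∈ U, (H * ((S.card : ℝ) + 2 * ∑ h ∈ Ico 1 H,
        ‖expSum n S ((h : ZMod n) * (((u c)⁻¹ : (ZMod n)ˣ) : ZMod n))‖)) :=
          sum_le_sum fun c hcU => (hc c hcU).trans (hfold c hcU)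
      _ = _ := by
          rw [← mul_sum, sum_add_distrib, sum_const, nsmul_eq_mul, ← mul_sum, sum_comm]
          ring
  have hfin : (∑ c ∈ U, (((range J).filter (fun j : ℕ => y c + (u c : ZMod n) * (j : ZMod n) ∈ S)).card : ℝ)) *
      ((H : ℝ) ^ 2 / 4) ≤ (4 / H * (U.card * S.card) +
        8 / H * Z) * ((H : ℝ) ^ 2 / 4) := by
    refine htot.trans ?_
    have h2 := mul_le_mul_of_nonneg_left hT (by positivity : (0 : ℝ) ≤ 2 * H)
    have h3 : (4 / H * (U.card * S.card) +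
        8 / H * Z) * ((H : ℝ) ^ 2 / 4) =
        H * (U.card * S.card) + 2 * H * Z := by
      field_simp
      ring
    rw [h3]
    linarith
  exact le_of_mul_le_mul_right hfin (by positivity)

/-- one residue-block estimate. -/
private theorem block_count_L1_one (p q : ℕ) (hp : 2 ≤ p) (hq : q.Prime) (hq3 : 3 ≤ q)
    (hpq : ¬ q ∣ p) (D : Finset ℕ) (hDq : D ⊆ range q) (Λ : ℝ) (hΛ : ∀ θ : ℝ, ∑ t ∈ range q, ‖∑ a ∈ D, Complex.exp
      (2 * Real.pi * Complex.I * ((a : ℂ) * ((θ : ℂ) + (t : ℂ)) / (q : ℂ)))‖ ≤ Λ) (l J j s : ℕ)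
    (hj : j ≤ wexp p q + l) (hJq : J ≤ q ^ (wexp p q + l)) (hJ : 6 * ((q ^ j - 1) * J) ≤ q ^ (wexp p q + l)) :
    (∑ i ∈ range (q ^ l), (((range J).filter (fun j : ℕ =>
      lowOK D q ((wexp p q + l) + (wexp p q + l))
        (p ^ ((q ^ l * s + i) + (q - 1) * q ^ l * j)))).card : ℝ)) ≤
      4 / (q : ℝ) ^ j * ((D.card : ℝ) ^ (wexp p q + l) * (D.card : ℝ) ^ (wexp p q + l)) +
      8 / (q : ℝ) ^ j * ((D.card : ℝ) ^ j * Λ ^ (wexp p q + l)) := by
  classical
  set r := wexp p q + l with hr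
  have hqpos : 0 < q := hq.pos
  have : NeZero (q ^ r) := ⟨pow_ne_zero _ hq.ne_zero⟩
  obtain ⟨w, hw, hPw⟩ := exists_w p q hp hq hq3 hpq l
  rw [← hr] at hPw
  have hcop : ∀ a : ℕ, Nat.Coprime (w * p ^ a) (q ^ r) := by
    intro a
    apply Nat.Coprime.pow_right
    apply Nat.Coprime.mul_left
    · exact Nat.coprime_comm.mp ((Nat.Prime.coprime_iff_not_dvd hq).mpr hw)
    · exact Nat.Coprime.pow_left _ (Nat.coprime_comm.mp ((Nat.Prime.coprime_iff_not_dvd hq).mpr hpq))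
  set u : ℕ → (ZMod (q ^ r))ˣ := fun i => ZMod.unitOfCoprime (w * p ^ (q ^ l * s + i)) (hcop _) with hu
  set y : ℕ → ZMod (q ^ r) := fun i => ((p ^ (q ^ l * s + i) / q ^ r : ℕ) : ZMod (q ^ r)) with hy
  set S := digitRes D q r with hS
  set U := (range (q ^ l)).filter (fun i => lowOK D q r (p ^ (q ^ l * s + i))) with hU
  -- expansion of the power
  have hexp : ∀ i j : ℕ, ∃ k, p ^ ((q ^ l * s + i) + (q - 1) * q ^ l * j) =
      p ^ (q ^ l * s + i) + q ^ r * (w * p ^ (q ^ l * s + i) * j + q ^ r * k) := by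
    intro i j
    obtain ⟨k, hk⟩ := one_add_pow_expand (q ^ r * w) j
    refine ⟨p ^ (q ^ l * s + i) * w ^ 2 * k, ?_⟩
    rw [pow_add, pow_mul p ((q - 1) * q ^ l) j, hPw, hk]
    ring
  have hmodr : ∀ i j : ℕ, lowOK D q r (p ^ ((q ^ l * s + i) + (q - 1) * q ^ l * j)) ↔
      lowOK D q r (p ^ (q ^ l * s + i)) := by
    intro i j
    obtain ⟨k, hk⟩ := hexp i j
    rw [← lowOK_mod D q r _ hqpos, hk, Nat.add_mul_mod_self_left, lowOK_mod D q r _ hqpos]
  have hdiv : ∀ i j : ℕ, ((p ^ ((q ^ l * s + i) + (q - 1) * q ^ l * j) / q ^ r : ℕ) : ZMod (q ^ r)) =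
      y i + (u i : ZMod (q ^ r)) * (j : ZMod (q ^ r)) := by
    intro i j
    obtain ⟨k, hk⟩ := hexp i j
    rw [hk, Nat.add_mul_div_left _ _ (pow_pos hqpos r)]
    rw [hu, hy]
    simp only [ZMod.coe_unitOfCoprime]
    push_cast
    have : ((q : ZMod (q ^ r)) ^ r) = 0 := by
      have := ZMod.natCast_self (q ^ r)
      push_cast at this
      exact this
    rw [this]
    ring
  have hU1 : ∀ a ∈ U, a < q ^ l ∧ lowOK D q r (p ^ (q ^ l * s + a)) := by
    intro a ha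
    rw [hU, mem_filter, mem_range] at ha
    exact ha
  have hinj2 : ∀ a ∈ U, ∀ b ∈ U, ((p ^ (q ^ l * s + a) : ℕ) : ZMod (q ^ r)) =
      ((p ^ (q ^ l * s + b) : ℕ) : ZMod (q ^ r)) → a = b := by
    intro a ha b hb hab
    have ha' := (hU1 a ha).1
    have hb' := (hU1 b hb).1
    rcases lt_trichotomy a b with h | h | h
    · exact (pow_inj p q hp hq hq3 hpq l _ _ (by omega) (by omega) hab).elim
    · exact h
    · exact (pow_inj p q hp hq hq3 hpq l _ _ (by omega) (by omega) hab.symm).elim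
  have hSU : U.card ≤ D.card ^ r := by
    refine le_trans ?_ (card_digitRes D q r hqpos)
    refine card_le_card_of_injOn (fun i => ((p ^ (q ^ l * s + i) : ℕ) : ZMod (q ^ r))) ?_ ?_
    · intro i hi
      rw [mem_coe]
      exact (mem_digitRes_natCast D q r _ hqpos).mpr (hU1 i hi).2
    · intro a ha b hb hab
      exact hinj2 a ha b hb hab
  have hScard : S.card ≤ D.card ^ r := card_digitRes D q r hqpos
  -- the energy
  set φ : ℕ → ℕ := fun a => p ^ (q ^ l * s + a) % q ^ r with hφ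
  have hφgood : ∀ a ∈ U, φ a ∈ good D q r := by
    intro a ha
    unfold good
    rw [mem_filter, mem_range]
    refine ⟨Nat.mod_lt _ (pow_pos hqpos r), ?_, ?_⟩
    · rw [hφ]
      exact (lowOK_mod D q r _ hqpos).mpr (hU1 a ha).2
    · intro hdv
      have hr1 : 0 < r := by
        have := wexp_pos p q hp hq hq3 hpq
        omega
      have h1 : q ∣ q ^ r := dvd_pow_self q hr1.ne'
      have h2 : q ∣ p ^ (q ^ l * s + a) := (Nat.dvd_mod_iff h1).1 hdv
      exact hpq (hq.dvd_of_dvd_pow h2)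
  have hφinj : ∀ a ∈ U, ∀ b ∈ U, φ a = φ b → a = b := by
    intro a ha b hb hab
    apply hinj2 a ha b hb
    rw [ZMod.natCast_eq_natCast_iff]
    exact hab
  have hfib : ∀ z : ZMod (q ^ r), (((Ico 1 (q ^ j)) ×ˢ U).filter (fun t : ℕ × ℕ =>
      ((t.1 : ℕ) : ZMod (q ^ r)) * (((u t.2)⁻¹ : (ZMod (q ^ r))ˣ) : ZMod (q ^ r)) = z)).card ≤
      D.card ^ j := by
    intro z
    refine le_trans ?_ (fibre_le D q hq r j hj (z * (w : ZMod (q ^ r))).val)
    refine card_le_card_of_injOn (fun t => (t.1, φ t.2)) ?_ ?_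
    · rintro ⟨h, c⟩ ht
      rw [mem_coe, mem_filter, mem_product] at ht
      obtain ⟨⟨hh, hc⟩, heq⟩ := ht
      simp only at hh hc heq
      rw [mem_coe, mem_filter, mem_product]
      refine ⟨⟨hh, hφgood c hc⟩, ?_⟩
      simp only
      rw [← ZMod.natCast_eq_natCast_iff]
      have e1 : ((u c : (ZMod (q ^ r))ˣ) : ZMod (q ^ r)) = (w : ZMod (q ^ r)) *
          ((p ^ (q ^ l * s + c) : ℕ) : ZMod (q ^ r)) := by
        rw [hu]
        simp only [ZMod.coe_unitOfCoprime]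
        rw [Nat.cast_mul]
      have e2 : ((φ c : ℕ) : ZMod (q ^ r)) = ((p ^ (q ^ l * s + c) : ℕ) : ZMod (q ^ r)) := by
        rw [ZMod.natCast_eq_natCast_iff]
        exact Nat.mod_modEq _ _
      rw [Nat.cast_mul, ZMod.natCast_val, ZMod.cast_id, e2, mul_assoc, ← e1, ← heq, mul_assoc,
        Units.inv_mul, mul_one]
    · rintro ⟨h, c⟩ ht ⟨h', c'⟩ ht' heq
      rw [mem_coe, mem_filter, mem_product] at ht ht'
      simp only [Prod.mk.injEq] at heq
      have e5 := hφinj c ht.1.2 c' ht'.1.2 heq.2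
      rw [heq.1, e5]
  have hZ : ∑ h ∈ Ico 1 (q ^ j), ∑ c ∈ U,
      ‖expSum (q ^ r) S ((h : ZMod (q ^ r)) * (((u c)⁻¹ : (ZMod (q ^ r))ˣ) : ZMod (q ^ r)))‖ ≤
      (D.card : ℝ) ^ j * Λ ^ r := by
    rw [← sum_product (s := Ico 1 (q ^ j)) (t := U) (f := fun t : ℕ × ℕ =>
      ‖expSum (q ^ r) S (((t.1 : ℕ) : ZMod (q ^ r)) *
        (((u t.2)⁻¹ : (ZMod (q ^ r))ˣ) : ZMod (q ^ r)))‖)]
    rw [← sum_fiberwise ((Ico 1 (q ^ j)) ×ˢ U) (fun t : ℕ × ℕ =>
      ((t.1 : ℕ) : ZMod (q ^ r)) * (((u t.2)⁻¹ : (ZMod (q ^ r))ˣ) : ZMod (q ^ r)))]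
    calc _ = ∑ z : ZMod (q ^ r), ((((Ico 1 (q ^ j)) ×ˢ U).filter (fun t : ℕ × ℕ =>
          ((t.1 : ℕ) : ZMod (q ^ r)) * (((u t.2)⁻¹ : (ZMod (q ^ r))ˣ) : ZMod (q ^ r)) = z)).card : ℝ) *
          ‖expSum (q ^ r) S z‖ := by
          refine sum_congr rfl fun z _ => ?_
          rw [← nsmul_eq_mul, ← sum_const]
          refine sum_congr rfl fun t ht => ?_
          rw [(mem_filter.1 ht).2]
      _ ≤ ∑ z : ZMod (q ^ r), (D.card : ℝ) ^ j * ‖expSum (q ^ r) S z‖ := by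
          refine sum_le_sum fun z _ => mul_le_mul_of_nonneg_right ?_ (norm_nonneg _)
          exact_mod_cast hfib z
      _ = (D.card : ℝ) ^ j * ∑ z : ZMod (q ^ r), ‖expSum (q ^ r) S z‖ := by rw [mul_sum]
      _ ≤ _ := by
          refine mul_le_mul_of_nonneg_left ?_ (by positivity)
          rw [hS]
          exact sum_expSum_le D q hqpos hDq Λ hΛ r
  have hmain := count_le_sum (q ^ r) S U u y (q ^ j) J (pow_pos hqpos j) hJq hJ _ hZ
  have hred : (∑ i ∈ range (q ^ l), (((range J).filter (fun j : ℕ =>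
      lowOK D q (r + r) (p ^ ((q ^ l * s + i) + (q - 1) * q ^ l * j)))).card : ℝ)) ≤
      ∑ i ∈ U, (((range J).filter (fun j : ℕ => y i + (u i : ZMod (q ^ r)) * (j : ZMod (q ^ r)) ∈ S)).card : ℝ) := by
    rw [hU, sum_filter]
    refine sum_le_sum fun i _ => ?_
    split_ifs with hlow
    · have : ((range J).filter (fun j : ℕ =>
          lowOK D q (r + r) (p ^ ((q ^ l * s + i) + (q - 1) * q ^ l * j)))) ⊆
          ((range J).filter (fun j : ℕ => y i + (u i : ZMod (q ^ r)) * (j : ZMod (q ^ r)) ∈ S)) := by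
        intro j hj
        rw [mem_filter] at hj ⊢
        refine ⟨hj.1, ?_⟩
        rw [← hdiv i j, hS, mem_digitRes_natCast D q r _ hqpos]
        exact ((lowOK_add D q r r _).mp hj.2).2
      exact_mod_cast card_le_card this
    · have : ((range J).filter (fun j : ℕ =>
          lowOK D q (r + r) (p ^ ((q ^ l * s + i) + (q - 1) * q ^ l * j)))) = ∅ := by
        rw [filter_eq_empty_iff]
        intro j _ hcon
        exact hlow ((hmodr i j).mp ((lowOK_add D q r r _).mp hcon).1)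
      rw [this]; simp
  refine hred.trans (hmain.trans ?_)
  have hU' : (U.card : ℝ) ≤ (D.card : ℝ) ^ r := by exact_mod_cast hSU
  have hS' : (S.card : ℝ) ≤ (D.card : ℝ) ^ r := by exact_mod_cast hScard
  have e1 : 4 / ((q ^ j : ℕ) : ℝ) * ((U.card : ℝ) * (S.card : ℝ)) ≤
      4 / (q : ℝ) ^ j * ((D.card : ℝ) ^ r * (D.card : ℝ) ^ r) := by
    rw [Nat.cast_pow]
    exact mul_le_mul_of_nonneg_left
      (mul_le_mul hU' hS' (Nat.cast_nonneg _) (pow_nonneg (Nat.cast_nonneg _) _))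
      (div_nonneg (by norm_num) (pow_nonneg (Nat.cast_nonneg _) _))
  rw [Nat.cast_pow] at e1 ⊢
  exact add_le_add e1 le_rfl

/-- the full count below `(q-1) q^l J`, from the `L¹` norm. -/
theorem block_count_L1 (p q : ℕ) (hp : 2 ≤ p) (hq : q.Prime) (hq3 : 3 ≤ q) (hpq : ¬ q ∣ p)
    (D : Finset ℕ) (hDq : D ⊆ range q) (Λ : ℝ) (hΛ0 : 0 ≤ Λ) (hΛ : ∀ θ : ℝ, ∑ t ∈ range q, ‖∑ a ∈ D, Complex.exp
      (2 * Real.pi * Complex.I * ((a : ℂ) * ((θ : ℂ) + (t : ℂ)) / (q : ℂ)))‖ ≤ Λ) (l J j : ℕ)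
    (hj : j ≤ wexp p q + l) (hJq : J ≤ q ^ (wexp p q + l)) (hJ : 6 * ((q ^ j - 1) * J) ≤ q ^ (wexp p q + l)) :
    (((range ((q - 1) * q ^ l * J)).filter (fun n =>
      lowOK D q ((wexp p q + l) + (wexp p q + l)) (p ^ n))).card : ℝ) ≤
      q * (4 / (q : ℝ) ^ j * ((D.card : ℝ) ^ (wexp p q + l) * (D.card : ℝ) ^ (wexp p q + l)) +
      8 / (q : ℝ) ^ j * ((D.card : ℝ) ^ j * Λ ^ (wexp p q + l))) := by
  classical
  set r := wexp p q + l with hr
  set B := 4 / (q : ℝ) ^ j * ((D.card : ℝ) ^ r * (D.card : ℝ) ^ r) +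
      8 / (q : ℝ) ^ j * ((D.card : ℝ) ^ j * Λ ^ r) with hB
  have hB0 : 0 ≤ B := by positivity
  set L := (q - 1) * q ^ l with hL
  have h1 : (((range (L * J)).filter (fun n => lowOK D q (r + r) (p ^ n))).card : ℝ) =
      ∑ a ∈ range L, ∑ j ∈ range J, (if lowOK D q (r + r) (p ^ (a + L * j)) then (1 : ℝ) else 0) := by
    rw [sum_comm]
    have := sum_range_mul_block (fun n => if lowOK D q (r + r) (p ^ n) then (1 : ℝ) else 0) J L
    rw [mul_comm J L] at this
    rw [card_filter]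
    push_cast
    rw [this]
    refine sum_congr rfl fun j _ => sum_congr rfl fun a _ => ?_
    rw [add_comm (L * j) a]
  have h2 : ∑ a ∈ range L, ∑ j ∈ range J, (if lowOK D q (r + r) (p ^ (a + L * j)) then (1 : ℝ) else 0) =
      ∑ s ∈ range (q - 1), ∑ i ∈ range (q ^ l), (((range J).filter (fun j : ℕ =>
        lowOK D q (r + r) (p ^ ((q ^ l * s + i) + (q - 1) * q ^ l * j)))).card : ℝ) := by
    rw [hL, sum_range_mul_block]
    refine sum_congr rfl fun s _ => sum_congr rfl fun i _ => ?_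
    rw [card_filter]
    push_cast
    rfl
  rw [h1, h2]
  calc _ ≤ ∑ s ∈ range (q - 1), B := by
        refine sum_le_sum fun s _ => ?_
        exact block_count_L1_one p q hp hq hq3 hpq D hDq Λ hΛ l J j s hj hJq hJ
    _ = (q - 1 : ℕ) * B := by rw [sum_const, card_range, nsmul_eq_mul]
    _ ≤ q * B := by
        refine mul_le_mul_of_nonneg_right ?_ hB0
        exact_mod_cast Nat.sub_le q 1

end Pool.Agent.DP4
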