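import Mathlib
import Pool.Agent.DigitPowers.Final
import Pool.Agent.DP4.FC

/-! Missing digits in powers: the exponent `1 - 2α(1 - α)/λ` from the `L¹` norm `q^λ` of the digits. -/

set_option autoImplicit false

namespace Pool.Agent.DP4

open Finset Pool.Agent.DigitPowers Pool.Agent.DP2

/-- the bound for one block, simplified -/
private theorem fd_block (Q d L κ α lm rho : ℝ) (r j : ℕ) (hQ : 3 ≤ Q)
    (hdα : d = Q ^ α) (hL : L = Q ^ lm) (hα0 : 0 ≤ α) (hα1 : α ≤ 1) (hκα : κ * α = 2 * α - lm)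
    (hrho : rho = Q ^ (2 * α - κ)) (hj : κ * r - 3 ≤ j) :
    Q * (4 / Q ^ j * (d ^ r * d ^ r) + 8 / Q ^ j * (d ^ j * L ^ r)) ≤
      Q * (4 * Q ^ 3 + 8 * Q ^ 3) * rho ^ r := by
  have hQ0 : 0 < Q := by linarith
  have hQ1 : 1 ≤ Q := by linarith
  have hrhor : rho ^ r = Q ^ ((2 * α - κ) * r) := by
    rw [hrho, ← Real.rpow_natCast, ← Real.rpow_mul hQ0.le]
  have hdr : ∀ m : ℕ, d ^ m = Q ^ (α * m) := by
    intro m
    rw [hdα, ← Real.rpow_natCast, ← Real.rpow_mul hQ0.le]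
  have hLr : L ^ r = Q ^ (lm * r) := by
    rw [hL, ← Real.rpow_natCast, ← Real.rpow_mul hQ0.le]
  have hQj : ∀ m : ℕ, Q ^ m = Q ^ ((m : ℝ)) := fun m => (Real.rpow_natCast Q m).symm
  have hQ3 : Q ^ (3 : ℝ) = Q ^ 3 := by
    rw [← Real.rpow_natCast]; norm_num
  -- the first term
  have h1 : 4 / Q ^ j * (d ^ r * d ^ r) ≤ 4 * Q ^ 3 * rho ^ r := by
    have e1 : 4 / Q ^ j * (d ^ r * d ^ r) = 4 * Q ^ (α * r + α * r - (j : ℝ)) := by
      rw [Real.rpow_sub hQ0, Real.rpow_add hQ0, ← hdr, ← hQj]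
      ring
    have e2 : 4 * Q ^ 3 * rho ^ r = 4 * Q ^ (3 + (2 * α - κ) * r) := by
      rw [Real.rpow_add hQ0, ← hrhor, hQ3]
      ring
    rw [e1, e2]
    apply mul_le_mul_of_nonneg_left _ (by norm_num)
    apply Real.rpow_le_rpow_of_exponent_le hQ1
    nlinarith
  -- the second term
  have h3 : 8 / Q ^ j * (d ^ j * L ^ r) ≤ 8 * Q ^ 3 * rho ^ r := by
    have e1 : 8 / Q ^ j * (d ^ j * L ^ r) = 8 * Q ^ (α * j + lm * r - (j : ℝ)) := by
      rw [Real.rpow_sub hQ0, Real.rpow_add hQ0, ← hdr, ← hLr, ← hQj]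
      ring
    have e2 : 8 * Q ^ 3 * rho ^ r = 8 * Q ^ (3 + (2 * α - κ) * r) := by
      rw [Real.rpow_add hQ0, ← hrhor, hQ3]
      ring
    rw [e1, e2]
    apply mul_le_mul_of_nonneg_left _ (by norm_num)
    apply Real.rpow_le_rpow_of_exponent_le hQ1
    have h4 : (1 - α) * (κ * r - 3) ≤ (1 - α) * j :=
      mul_le_mul_of_nonneg_left hj (by linarith)
    have h5 : (1 - α) * (κ * r - 3) = κ * r - (2 * α - lm) * r - 3 * (1 - α) := by
      rw [← hκα]; ring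
    linarith
  have h9 := mul_le_mul_of_nonneg_left (add_le_add h1 h3) hQ0.le
  linarith

/-- the exponent `1 - 2α(1 - α)/λ` if the one-digit `L¹` norms are at most `L = q^λ`. -/
theorem missing_count_L1 (p q : ℕ) (hp : 2 ≤ p) (hq : q.Prime) (hq3 : 3 ≤ q) (hpq : ¬ q ∣ p)
    (D : Finset ℕ) (hDs : D ⊆ range q) (hD : q ≤ D.card ^ 2) (L : ℝ) (hqL : (q : ℝ) ≤ L)
    (hLd : L ≤ (D.card : ℝ) ^ 2) (hL : ∀ θ : ℝ, ∑ t ∈ range q, ‖∑ a ∈ D, Complex.exp
      (2 * Real.pi * Complex.I * ((a : ℂ) * ((θ : ℂ) + (t : ℂ)) / (q : ℂ)))‖ ≤ L) :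
    ∃ C : ℝ, ∀ N : ℕ, (((range N).filter (fun n => (Nat.digits q (p ^ n)).toFinset ⊆ D)).card : ℝ) ≤
      C * (N : ℝ) ^ (1 - 2 * Real.logb q D.card * (1 - Real.logb q D.card) / Real.logb q L) := by
  classical
  have hDq : D.card ≤ q := by
    have := card_le_card hDs
    rwa [card_range] at this
  obtain ⟨Q, hQd⟩ : ∃ Q : ℝ, Q = (q : ℝ) := ⟨_, rfl⟩
  obtain ⟨d, hd⟩ : ∃ d : ℝ, d = (D.card : ℝ) := ⟨_, rfl⟩
  rw [← hQd, ← hd]
  rw [← hQd] at hqL
  rw [← hd] at hLd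
  obtain ⟨α, hα⟩ : ∃ α : ℝ, α = Real.logb Q d := ⟨_, rfl⟩
  obtain ⟨lm, hlm⟩ : ∃ lm : ℝ, lm = Real.logb Q L := ⟨_, rfl⟩
  rw [← hα, ← hlm]
  have hq0 : 0 < Q := by rw [hQd]; exact_mod_cast hq.pos
  have hQ3 : 3 ≤ Q := by rw [hQd]; exact_mod_cast hq3
  have hQ1 : 1 < Q := by linarith
  have hD1 : q + 1 ≤ D.card ^ 2 := by
    rcases hD.eq_or_lt with h | h
    · exfalso
      rw [h, sq] at hq
      exact hq.not_isSquare ⟨_, rfl⟩
    · exact h
  have hd2 : (2 : ℝ) ≤ d := by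
    have : 2 ≤ D.card := by
      by_contra hcon
      push Not at hcon
      have : D.card ^ 2 ≤ 1 ^ 2 := Nat.pow_le_pow_left (by omega) 2
      omega
    rw [hd]; exact_mod_cast this
  have hd0 : 0 < d := by linarith
  have hdq : d ≤ Q := by rw [hd, hQd]; exact_mod_cast hDq
  have hqd : Q ≤ d ^ 2 := by rw [hd, hQd]; exact_mod_cast hD
  have hL0 : 0 < L := by linarith
  have hdα : d = Q ^ α := by rw [hα, Real.rpow_logb hq0 hQ1.ne' hd0]
  have hα1 : α ≤ 1 := by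
    rw [hα, Real.logb_le_iff_le_rpow hQ1 hd0, Real.rpow_one]
    exact hdq
  have hαpos : 0 < α := by
    rw [hα]
    exact Real.logb_pos hQ1 (by linarith)
  have hLlm : L = Q ^ lm := by rw [hlm, Real.rpow_logb hq0 hQ1.ne' hL0]
  have hlm1 : 1 ≤ lm := by
    rw [hlm, Real.le_logb_iff_rpow_le hQ1 hL0, Real.rpow_one]
    exact hqL
  have hlm2 : lm ≤ 2 * α := by
    rw [hlm, Real.logb_le_iff_le_rpow hQ1 hL0, mul_comm, Real.rpow_mul hq0.le, ← hdα,
      Real.rpow_two]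
    exact hLd
  obtain ⟨κ, hκ⟩ : ∃ κ : ℝ, κ = 2 - lm / α := ⟨_, rfl⟩
  have hκα : κ * α = 2 * α - lm := by
    rw [hκ]; field_simp
  have hκ0 : 0 ≤ κ := by
    rw [hκ, sub_nonneg, div_le_iff₀ hαpos]
    exact hlm2
  have hκ1 : κ ≤ 1 := by
    have h1 : 1 ≤ lm / α := by
      rw [le_div_iff₀ hαpos]
      linarith
    rw [hκ]; linarith
  have hρ1 : 3 / 4 ≤ 2 * α - κ := by
    have h1 : 11 / 4 - 2 * α ≤ lm / α := by
      rw [le_div_iff₀ hαpos]
      nlinarith [sq_nonneg (α - 11 / 16)]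
    rw [hκ]; linarith
  obtain ⟨γ, hγ⟩ : ∃ γ : ℝ, γ = 1 - 2 * α * (1 - α) / lm := ⟨_, rfl⟩
  rw [← hγ]
  have hlm0 : 0 < lm := by linarith
  have hγκ : (2 - κ) * γ = 2 * α - κ := by
    rw [hγ, hκ]
    field_simp
    ring
  have hγ0 : 0 < γ := by
    by_contra hcon
    push Not at hcon
    have h1 : (2 - κ) * γ ≤ 0 := mul_nonpos_of_nonneg_of_nonpos (by linarith) hcon
    linarith
  obtain ⟨lam, hlam⟩ : ∃ lam : ℝ, lam = Q ^ (2 - κ) := ⟨_, rfl⟩
  obtain ⟨rho, hrho⟩ : ∃ rho : ℝ, rho = Q ^ (2 * α - κ) := ⟨_, rfl⟩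
  have hlam0 : 0 < lam := by rw [hlam]; positivity
  have hrho0 : 0 < rho := by rw [hrho]; positivity
  have hlam1 : 1 < lam := by
    rw [hlam]
    exact Real.one_lt_rpow hQ1 (by linarith)
  have hrho2 : 2 ≤ rho := by
    have h1 : Q ^ (3 / 4 : ℝ) ≤ rho := by
      rw [hrho]
      exact Real.rpow_le_rpow_of_exponent_le hQ1.le hρ1
    have h2 : (Q ^ (3 / 4 : ℝ)) ^ 4 = Q ^ 3 := by
      rw [← Real.rpow_natCast, ← Real.rpow_mul hq0.le, ← Real.rpow_natCast]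
      norm_num
    have h3 : (2 : ℝ) ^ 4 ≤ (Q ^ (3 / 4 : ℝ)) ^ 4 := by
      rw [h2]
      have h4 : (3 : ℝ) ^ 3 ≤ Q ^ 3 := pow_le_pow_left₀ (by norm_num) hQ3 3
      linarith
    have h5 := (pow_le_pow_iff_left₀ (by norm_num : (0 : ℝ) ≤ 2) (by positivity)
      (by norm_num : (4 : ℕ) ≠ 0)).1 h3
    linarith
  have hpowγ : lam ^ γ = rho := by
    rw [hlam, hrho, ← Real.rpow_mul hq0.le, hγκ]
  obtain ⟨e, he⟩ : ∃ e : ℕ, e = wexp p q := ⟨_, rfl⟩
  have he1 : 1 ≤ e := by rw [he]; exact wexp_pos p q hp hq hq3 hpq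
  obtain ⟨K, hK⟩ : ∃ K : ℝ, K = Q * (4 * Q ^ 3 + 8 * Q ^ 3) + 2 * Q := ⟨_, rfl⟩
  have hK0 : 0 < K := by rw [hK]; positivity
  refine ⟨K * rho ^ e * (lam * (2 * Q ^ e)) ^ γ, fun N => ?_⟩
  rcases Nat.eq_zero_or_pos N with hN | hN
  · subst hN
    rw [Nat.cast_zero, Real.zero_rpow hγ0.ne']
    simp
  have hN1 : (1 : ℝ) ≤ N := by exact_mod_cast hN
  obtain ⟨X, hX⟩ : ∃ X : ℝ, X = 2 * Q ^ e * N := ⟨_, rfl⟩
  have hqe : (1 : ℝ) ≤ Q ^ e := one_le_pow₀ hQ1.le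
  have hX1 : 1 ≤ X := by
    rw [hX]
    have t1 : (1 : ℝ) ≤ Q ^ e * N := one_le_mul_of_one_le_of_one_le hqe hN1
    linarith only [t1]
  obtain ⟨n0, hn0, hn1⟩ := exists_nat_pow_near hX1 hlam1
  obtain ⟨l, hl⟩ : ∃ l : ℕ, l = n0 + 1 := ⟨_, rfl⟩
  have hlX : X ≤ lam ^ l := by rw [hl]; exact hn1.le
  have hlX' : lam ^ l ≤ lam * X := by
    rw [hl, pow_succ, mul_comm]
    exact mul_le_mul_of_nonneg_left hn0 hlam0.le
  obtain ⟨r, hr⟩ : ∃ r : ℕ, r = e + l := ⟨_, rfl⟩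
  have hr2 : 2 ≤ r := by omega
  have hqr : (0 : ℝ) < Q ^ r := by positivity
  obtain ⟨M, hM⟩ : ∃ M : ℕ, M = (q - 1) * q ^ l := ⟨_, rfl⟩
  have hLpos : 0 < M := by rw [hM]; exact Nat.mul_pos (by omega) (pow_pos hq.pos l)
  obtain ⟨J, hJ⟩ : ∃ J : ℕ, J = N / M + 1 := ⟨_, rfl⟩
  have hLJ : N ≤ M * J := by
    have := Nat.lt_mul_div_succ N hLpos
    rw [hJ]
    exact this.le
  -- real bound on J
  have hLreal : 2 * Q ^ l ≤ M := by
    rw [hM]; push_cast
    have : (2 : ℝ) ≤ ((q - 1 : ℕ) : ℝ) := by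
      have : 2 ≤ q - 1 := by omega
      exact_mod_cast this
    rw [hQd]
    exact mul_le_mul_of_nonneg_right this (by positivity)
  have hJreal : (J : ℝ) ≤ (lam / Q) ^ r / 4 + 1 := by
    have h1 : ((N / M : ℕ) : ℝ) ≤ (N : ℝ) / M := Nat.cast_div_le
    have h2 : (N : ℝ) / M ≤ (lam / Q) ^ r / 4 := by
      have h3 : (N : ℝ) ≤ lam ^ l / (2 * Q ^ e) := by
        rw [le_div_iff₀ (by positivity)]
        calc (N : ℝ) * (2 * Q ^ e) = X := by rw [hX]; ring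
          _ ≤ _ := hlX
      have h4 : (N : ℝ) / M ≤ (lam ^ l / (2 * Q ^ e)) / (2 * Q ^ l) := by
        gcongr
      have h5 : lam ^ l ≤ lam ^ r := pow_le_pow_right₀ hlam1.le (by omega)
      calc (N : ℝ) / M ≤ (lam ^ l / (2 * Q ^ e)) / (2 * Q ^ l) := h4
        _ = lam ^ l / Q ^ r / 4 := by
            rw [hr, pow_add]; field_simp; ring
        _ ≤ lam ^ r / Q ^ r / 4 := by gcongr
        _ = (lam / Q) ^ r / 4 := by rw [div_pow lam]
    rw [hJ]; push_cast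
    linarith
  have hlamQ : (lam / Q) ^ r = Q ^ ((1 - κ) * r) := by
    have h1 : lam / Q = Q ^ (1 - κ) := by
      rw [hlam]
      have h2 : Q ^ (2 - κ) = Q ^ (1 - κ) * Q := by
        have h3 : Q ^ (2 - κ) = Q ^ ((1 - κ) + 1) := by congr 1; ring
        rw [h3, Real.rpow_add_one hq0.ne']
      rw [h2]
      field_simp
    rw [h1, ← Real.rpow_natCast, ← Real.rpow_mul hq0.le]
  have hprod : Q ^ (κ * r) * (lam / Q) ^ r = Q ^ r := by
    rw [hlamQ, ← Real.rpow_add hq0, ← Real.rpow_natCast]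
    congr 1
    ring
  have hκr0 : 0 ≤ κ * r := by positivity
  have hκr1 : 1 ≤ Q ^ (κ * r) := Real.one_le_rpow hQ1.le hκr0
  have hlamQr : (lam / Q) ^ r ≤ Q ^ r := by
    rw [← hprod]
    exact le_mul_of_one_le_left (by positivity) hκr1
  have hQr3 : (3 : ℝ) ≤ Q ^ r := by
    calc (3 : ℝ) ≤ Q ^ 1 := by rw [pow_one]; linarith
      _ ≤ Q ^ r := pow_le_pow_right₀ hQ1.le (by omega)
  have hJq : J ≤ q ^ r := by
    have h3 : (J : ℝ) ≤ Q ^ r := by linarith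
    rw [hQd] at h3
    exact_mod_cast h3
  -- the interval
  obtain ⟨j, hj⟩ : ∃ j : ℕ, j = ⌊κ * r⌋₊ - 2 := ⟨_, rfl⟩
  have hfl1 : (⌊κ * r⌋₊ : ℝ) ≤ κ * r := Nat.floor_le hκr0
  have hfl2 : κ * r < ⌊κ * r⌋₊ + 1 := Nat.lt_floor_add_one _
  have hj3 : κ * r - 3 ≤ j := by
    have h1 : ⌊κ * r⌋₊ ≤ j + 2 := by omega
    have h2 : (⌊κ * r⌋₊ : ℝ) ≤ j + 2 := by exact_mod_cast h1
    linarith
  have hj2 : (j : ℝ) ≤ κ * r := by
    have h1 : j ≤ ⌊κ * r⌋₊ := by omega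
    exact le_trans (by exact_mod_cast h1) hfl1
  have hjJ : 6 * ((q ^ j - 1) * J) ≤ q ^ r := by
    rcases Nat.eq_zero_or_pos j with h0 | h0
    · rw [h0, pow_zero]
      simp
    · have h1 : j + 2 ≤ ⌊κ * r⌋₊ := by omega
      have h2 : ((j + 2 : ℕ) : ℝ) ≤ κ * r := le_trans (by exact_mod_cast h1) hfl1
      have h3 : Q ^ (j + 2) ≤ Q ^ (κ * r) := by
        rw [← Real.rpow_natCast]
        exact Real.rpow_le_rpow_of_exponent_le hQ1.le h2
      have h4 : 9 * Q ^ j ≤ Q ^ (κ * r) := by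
        refine le_trans ?_ h3
        rw [pow_add, mul_comm]
        apply mul_le_mul_of_nonneg_left _ (by positivity)
        nlinarith
      have h5 : ((q ^ j - 1 : ℕ) : ℝ) ≤ Q ^ j := by
        rw [hQd]
        exact_mod_cast Nat.sub_le _ _
      have h6 : Q ^ j * J ≤ Q ^ r / 6 := by
        calc Q ^ j * J ≤ (Q ^ (κ * r) / 9) * ((lam / Q) ^ r / 4 + 1) := by
              apply mul_le_mul _ hJreal (Nat.cast_nonneg _) (by positivity)
              linarith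
          _ = Q ^ r / 36 + Q ^ (κ * r) / 9 := by
              rw [← hprod]; ring
          _ ≤ Q ^ r / 36 + Q ^ r / 9 := by
              have h7 : Q ^ (κ * r) ≤ Q ^ r := by
                rw [← Real.rpow_natCast]
                apply Real.rpow_le_rpow_of_exponent_le hQ1.le
                have : (0 : ℝ) ≤ r := Nat.cast_nonneg r
                nlinarith
              linarith
          _ ≤ Q ^ r / 6 := by linarith
      have h8 : ((q ^ j - 1 : ℕ) : ℝ) * J ≤ Q ^ r / 6 :=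
        (mul_le_mul_of_nonneg_right h5 (Nat.cast_nonneg _)).trans h6
      have h9 : (6 : ℝ) * (((q ^ j - 1 : ℕ) : ℝ) * J) ≤ (q : ℝ) ^ r := by
        rw [← hQd]
        linarith
      exact_mod_cast h9
  have hjr : j ≤ r := by
    have h1 : (j : ℝ) ≤ r := hj2.trans (mul_le_of_le_one_left (Nat.cast_nonneg r) hκ1)
    exact_mod_cast h1
  have hblock := block_count_L1 p q hp hq hq3 hpq D hDs L hL0.le hL l J j
    (by rw [← he, ← hr]; exact hjr) (by rw [← he, ← hr]; exact hJq)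
    (by rw [← he, ← hr]; exact hjJ)
  rw [← he, ← hr, ← hM, ← hd, ← hQd] at hblock
  have hB := fd_block Q d L κ α lm rho r j hQ3 hdα hLlm hαpos.le hα1 hκα hrho hj3
  have hB2 := hblock.trans hB
  -- split the count
  have hsplit : ((range N).filter (fun n => (Nat.digits q (p ^ n)).toFinset ⊆ D)) ⊆
      ((range (M * J)).filter (fun n => lowOK D q (r + r) (p ^ n))) ∪
      ((range N).filter (fun n => p ^ n < q ^ (r + r))) := by
    intro n hn
    rw [mem_filter, mem_range] at hn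
    rw [mem_union, mem_filter, mem_filter, mem_range, mem_range]
    by_cases hlt : p ^ n < q ^ (r + r)
    · right; exact ⟨hn.1, hlt⟩
    · left
      push Not at hlt
      exact ⟨by omega, lowOK_of_digits D q _ _ (by omega) hlt hn.2⟩
  have hcard := (card_le_card hsplit).trans (card_union_le _ _)
  have hsmall := small_exponents p q (r + r) N hp
  have hfin : (((range N).filter (fun n => (Nat.digits q (p ^ n)).toFinset ⊆ D)).card : ℝ) ≤
      K * rho ^ r := by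
    have h1 : (((range N).filter (fun n => (Nat.digits q (p ^ n)).toFinset ⊆ D)).card : ℝ) ≤
        (((range (M * J)).filter (fun n => lowOK D q (r + r) (p ^ n))).card : ℝ) +
        ((q * (r + r) : ℕ) : ℝ) := by
      have : ((range N).filter (fun n => (Nat.digits q (p ^ n)).toFinset ⊆ D)).card ≤
        ((range (M * J)).filter (fun n => lowOK D q (r + r) (p ^ n))).card + q * (r + r) := by
        omega
      exact_mod_cast this
    have h2 : ((q * (r + r) : ℕ) : ℝ) ≤ 2 * Q * rho ^ r := by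
      push_cast
      rw [← hQd]
      have h3 : (r : ℝ) ≤ rho ^ r := by
        calc (r : ℝ) ≤ 2 ^ r := by exact_mod_cast (Nat.lt_two_pow_self).le
          _ ≤ rho ^ r := pow_le_pow_left₀ (by norm_num) hrho2 r
      calc Q * ((r : ℝ) + r) = 2 * Q * r := by ring
        _ ≤ 2 * Q * rho ^ r := by gcongr
    have h4 := hB2
    rw [hK, add_mul]
    linarith only [h1, h2, h4]
  -- conclude
  calc (((range N).filter (fun n => (Nat.digits q (p ^ n)).toFinset ⊆ D)).card : ℝ)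
      ≤ K * rho ^ r := hfin
    _ = K * rho ^ e * rho ^ l := by rw [hr, pow_add]; ring
    _ = K * rho ^ e * (lam ^ l) ^ γ := by
        rw [← hpowγ]
        congr 1
        rw [← Real.rpow_natCast, ← Real.rpow_natCast, ← Real.rpow_mul hlam0.le,
          ← Real.rpow_mul hlam0.le, mul_comm]
    _ ≤ K * rho ^ e * (lam * X) ^ γ := by
        gcongr
    _ = K * rho ^ e * (lam * (2 * Q ^ e)) ^ γ * (N : ℝ) ^ γ := by
        rw [hX, show lam * (2 * Q ^ e * N) = (lam * (2 * Q ^ e)) * N by ring,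
          Real.mul_rpow (by positivity) (by positivity)]
        ring

end Pool.Agent.DP4
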