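import Mathlib

/-!
# The `L¹` norm of the digit sum over one residue system, all digits but one
-/

set_option autoImplicit false

namespace Pool.Agent.DP4

open Finset

private theorem fe_sin_ge {x : ℝ} (h0 : 0 ≤ x) (h1 : x ≤ 1) :
    Real.pi * (x * (1 - x)) ≤ Real.sin (Real.pi * x) := by
  have key : ∀ x : ℝ, 0 ≤ x → x ≤ 1 / 2 →
      Real.pi * (x * (1 - x)) ≤ Real.sin (Real.pi * x) := by
    intro x h0 h1
    have hp := Real.pi_pos
    have h := Real.sin_ge_sub_cube (x := Real.pi * x) (by positivity)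
    have hpi : Real.pi < 3.15 := Real.pi_lt_d2
    have h2 : Real.pi ^ 2 * x ≤ 6 := by
      have : Real.pi ^ 2 ≤ 10 := by nlinarith
      nlinarith
    have h3 : 0 ≤ Real.pi * x ^ 2 * (6 - Real.pi ^ 2 * x) := by
      apply mul_nonneg (by positivity)
      linarith
    nlinarith
  rcases le_total x (1 / 2) with h | h
  · exact key x h0 h
  · have h2 := key (1 - x) (by linarith) (by linarith)
    have h3 : Real.sin (Real.pi * (1 - x)) = Real.sin (Real.pi * x) := by
      rw [mul_sub, mul_one, Real.sin_pi_sub]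
    rw [h3] at h2
    have : x * (1 - x) = (1 - x) * (1 - (1 - x)) := by ring
    rw [this]
    exact h2

private theorem fe_sin_le {x : ℝ} (h0 : 0 ≤ x) (h1 : x ≤ 1) :
    Real.sin (Real.pi * x) ≤ 4 * (x * (1 - x)) := by
  have hp := Real.pi_pos
  have key : ∀ u : ℝ, 0 ≤ u → u ≤ 1 / 2 → Real.cos (Real.pi * u) ≤ 1 - 4 * u ^ 2 := by
    intro u h0 h1
    have hc := strictConcaveOn_sin_Icc.concaveOn.2
      (show (0 : ℝ) ∈ Set.Icc 0 Real.pi from ⟨le_refl _, hp.le⟩)
      (show Real.pi / 4 ∈ Set.Icc 0 Real.pi from ⟨by positivity, by linarith⟩)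
      (show 0 ≤ 1 - 2 * u by linarith) (show 0 ≤ 2 * u by linarith)
      (show 1 - 2 * u + 2 * u = 1 by ring)
    simp only [smul_eq_mul, Real.sin_zero, mul_zero, zero_add, Real.sin_pi_div_four] at hc
    have h3 : 2 * u * (Real.pi / 4) = Real.pi * u / 2 := by ring
    rw [h3] at hc
    have h4 : Real.cos (Real.pi * u) = 1 - 2 * Real.sin (Real.pi * u / 2) ^ 2 := by
      have := Real.cos_sq_add_sin_sq (Real.pi * u / 2)
      have h5 : Real.cos (Real.pi * u) = Real.cos (2 * (Real.pi * u / 2)) := by ring_nf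
      rw [h5, Real.cos_two_mul]
      linarith
    rw [h4]
    have h6 : (2 * u * (Real.sqrt 2 / 2)) ^ 2 ≤ Real.sin (Real.pi * u / 2) ^ 2 := by
      apply pow_le_pow_left₀ (by positivity) hc
    have h7 : (2 * u * (Real.sqrt 2 / 2)) ^ 2 = 2 * u ^ 2 := by
      have := Real.sq_sqrt (show (0 : ℝ) ≤ 2 by norm_num)
      have e : (2 * u * (Real.sqrt 2 / 2)) ^ 2 = u ^ 2 * Real.sqrt 2 ^ 2 := by ring
      rw [e, this]; ring
    rw [h7] at h6
    linarith
  rcases le_total x (1 / 2) with h | h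
  · have h2 := key (1 / 2 - x) (by linarith) (by linarith)
    have h3 : Real.pi * (1 / 2 - x) = Real.pi / 2 - Real.pi * x := by ring
    rw [h3, Real.cos_pi_div_two_sub] at h2
    nlinarith
  · have h2 := key (x - 1 / 2) (by linarith) (by linarith)
    have h3 : Real.pi * (x - 1 / 2) = Real.pi * x - Real.pi / 2 := by ring
    rw [h3, Real.cos_sub_pi_div_two] at h2
    nlinarith

/-- the full sum over the digits -/
private noncomputable def F (q : ℕ) (x : ℝ) : ℝ :=
  ‖∑ a ∈ range q, Complex.exp (2 * Real.pi * Complex.I * (a * x))‖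

private theorem F_periodic (q : ℕ) (x : ℝ) : F q (x + 1) = F q x := by
  unfold F
  congr 1
  apply Finset.sum_congr rfl
  intro a _
  have : (2 * Real.pi * Complex.I * (a * ((x + 1 : ℝ) : ℂ)) : ℂ) =
      2 * Real.pi * Complex.I * (a * (x : ℂ)) + (a : ℂ) * (2 * Real.pi * Complex.I) := by
    push_cast; ring
  rw [this]
  exact (Complex.exp_periodic.nat_mul a) _

private theorem F_le (q : ℕ) (x : ℝ) (h0 : 0 < x) (h1 : x < 1) :
    F q x ≤ |Real.sin (Real.pi * (q * x))| / (Real.pi * (x * (1 - x))) := by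
  have hp := Real.pi_pos
  have hs : 0 < Real.pi * (x * (1 - x)) := by
    apply mul_pos hp (mul_pos h0 (by linarith))
  have hs2 := fe_sin_ge h0.le h1.le
  have hs3 : 0 < Real.sin (Real.pi * x) := lt_of_lt_of_le hs hs2
  have e1 : ∀ y : ℝ, ‖Complex.exp (2 * Real.pi * Complex.I * y) - 1‖ =
      2 * |Real.sin (Real.pi * y)| := by
    intro y
    have h := Complex.norm_exp_I_mul_ofReal_sub_one (2 * Real.pi * y)
    have e2 : Complex.I * ((2 * Real.pi * y : ℝ) : ℂ) = 2 * Real.pi * Complex.I * y := by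
      push_cast; ring
    rw [e2] at h
    rw [h]
    have e3 : 2 * Real.pi * y / 2 = Real.pi * y := by ring
    rw [e3, norm_mul, Real.norm_eq_abs, Real.norm_eq_abs, abs_of_pos (by norm_num : (0:ℝ) < 2)]
  have hz : Complex.exp (2 * Real.pi * Complex.I * x) ≠ 1 := by
    intro h
    have := e1 x
    rw [h, sub_self, norm_zero, abs_of_pos hs3] at this
    linarith
  have hg : ∑ a ∈ range q, Complex.exp (2 * Real.pi * Complex.I * (a * x)) =
      (Complex.exp (2 * Real.pi * Complex.I * ((q * x : ℝ) : ℂ)) - 1) /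
        (Complex.exp (2 * Real.pi * Complex.I * x) - 1) := by
    have : ∀ a ∈ range q, Complex.exp (2 * Real.pi * Complex.I * (a * x)) =
        Complex.exp (2 * Real.pi * Complex.I * x) ^ a := by
      intro a _
      rw [← Complex.exp_nat_mul]
      congr 1; ring
    rw [Finset.sum_congr rfl this, geom_sum_eq hz, ← Complex.exp_nat_mul]
    congr 3
    push_cast; ring
  unfold F
  rw [hg, norm_div, e1, e1, abs_of_pos hs3, mul_div_mul_left _ _ (by norm_num : (2:ℝ) ≠ 0)]
  exact div_le_div_of_nonneg_left (abs_nonneg _) hs hs2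

private theorem fe_full_aux (q : ℕ) (hq : 1 ≤ q) (θ : ℝ) (h0 : 0 ≤ θ) (h1 : θ < 1) :
    ∑ t ∈ range q, F q ((θ + t) / q) ≤ q * ((5 + 2 * Real.log q) / Real.pi) := by
  have hp := Real.pi_pos
  have hq0 : (0 : ℝ) < q := by exact_mod_cast hq
  have hlog : 0 ≤ Real.log q := Real.log_nonneg (by exact_mod_cast hq)
  rcases h0.eq_or_lt with h | h
  · -- `θ = 0`
    subst h
    obtain ⟨p, rfl⟩ : ∃ p, q = p + 1 := ⟨q - 1, by omega⟩
    rw [Finset.sum_range_succ']
    have hz : ∑ t ∈ range p, F (p + 1) ((0 + ((t + 1 : ℕ) : ℝ)) / ((p + 1 : ℕ) : ℝ)) = 0 := by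
      apply Finset.sum_eq_zero
      intro t ht
      rw [Finset.mem_range] at ht
      have hx0 : 0 < (0 + ((t + 1 : ℕ) : ℝ)) / ((p + 1 : ℕ) : ℝ) := by positivity
      have hx1 : (0 + ((t + 1 : ℕ) : ℝ)) / ((p + 1 : ℕ) : ℝ) < 1 := by
        rw [div_lt_one hq0, zero_add]
        exact_mod_cast (by omega : t + 1 < p + 1)
      apply le_antisymm _ (norm_nonneg _)
      refine (F_le _ _ hx0 hx1).trans (le_of_eq ?_)
      have : Real.pi * (((p + 1 : ℕ) : ℝ) * ((0 + ((t + 1 : ℕ) : ℝ)) / ((p + 1 : ℕ) : ℝ))) =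
          ((t + 1 : ℕ) : ℝ) * Real.pi := by
        field_simp
        ring
      rw [this, Real.sin_nat_mul_pi, abs_zero, zero_div]
    rw [hz, zero_add]
    have h2 : F (p + 1) ((0 + ((0 : ℕ) : ℝ)) / ((p + 1 : ℕ) : ℝ)) ≤ ((p + 1 : ℕ) : ℝ) := by
      unfold F
      refine (norm_sum_le _ _).trans ?_
      have : ∀ a ∈ range (p + 1), ‖Complex.exp (2 * Real.pi * Complex.I *
          (a * (((0 + ((0 : ℕ) : ℝ)) / ((p + 1 : ℕ) : ℝ) : ℝ) : ℂ)))‖ ≤ 1 := by
        intro a _
        simp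
      refine (Finset.sum_le_sum this).trans ?_
      simp
    refine h2.trans ?_
    have h3 : 1 ≤ (5 + 2 * Real.log ((p + 1 : ℕ) : ℝ)) / Real.pi := by
      rw [le_div_iff₀ hp]
      have := Real.pi_lt_d2
      linarith
    nlinarith
  · -- `0 < θ < 1`
    have hterm : ∀ t ∈ range q, F q ((θ + t) / q) ≤
        q / Real.pi * (Real.sin (Real.pi * θ) * (1 / (θ + t) + 1 / (q - (θ + t)))) := by
      intro t ht
      rw [Finset.mem_range] at ht
      have ht' : (t : ℝ) + 1 ≤ q := by exact_mod_cast ht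
      have ht0 : (0 : ℝ) ≤ t := Nat.cast_nonneg t
      have hx0 : 0 < (θ + t) / q := by positivity
      have hx1 : (θ + t) / q < 1 := by
        rw [div_lt_one hq0]; linarith
      refine (F_le _ _ hx0 hx1).trans (le_of_eq ?_)
      have e1 : Real.pi * ((q : ℝ) * ((θ + t) / q)) = Real.pi * θ + t * Real.pi := by
        field_simp
      have hsin : 0 ≤ Real.sin (Real.pi * θ) :=
        Real.sin_nonneg_of_nonneg_of_le_pi (by positivity) (by nlinarith)
      have e2 : |Real.sin (Real.pi * θ + t * Real.pi)| = Real.sin (Real.pi * θ) := by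
        rw [Real.sin_add_nat_mul_pi, abs_mul, abs_pow, abs_neg, abs_one, one_pow, one_mul,
          abs_of_nonneg hsin]
      rw [e1, e2]
      have hne1 : θ + (t : ℝ) ≠ 0 := by positivity
      have hne2 : (q : ℝ) - (θ + t) ≠ 0 := by
        have : 0 < (q : ℝ) - (θ + t) := by linarith
        exact this.ne'
      have hne3 : 1 - (θ + t) / (q : ℝ) ≠ 0 := by
        have : 0 < 1 - (θ + t) / (q : ℝ) := by linarith
        exact this.ne'
      have hne4 : 1 - (θ + t) / (q : ℝ) = (q - (θ + t)) / q := by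
        field_simp
      rw [hne4]
      field_simp
      ring
    refine (Finset.sum_le_sum hterm).trans ?_
    rw [← Finset.mul_sum, ← Finset.mul_sum, Finset.sum_add_distrib]
    have hrefl : ∑ t ∈ range q, 1 / ((q : ℝ) - (θ + t)) = ∑ t ∈ range q, 1 / (1 - θ + t) := by
      rw [← Finset.sum_range_reflect]
      apply Finset.sum_congr rfl
      intro t ht
      rw [Finset.mem_range] at ht
      congr 1
      rw [Nat.cast_sub (by omega), Nat.cast_sub (by omega)]
      push_cast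
      ring
    rw [hrefl, ← Finset.sum_add_distrib]
    obtain ⟨p, rfl⟩ : ∃ p, q = p + 1 := ⟨q - 1, by omega⟩
    rw [Finset.sum_range_succ']
    have hsin : 0 ≤ Real.sin (Real.pi * θ) :=
      Real.sin_nonneg_of_nonneg_of_le_pi (by positivity) (by nlinarith)
    have hmain : ∑ t ∈ range p, (1 / (θ + ((t + 1 : ℕ) : ℝ)) + 1 / (1 - θ + ((t + 1 : ℕ) : ℝ))) ≤
        1 + 2 * Real.log ((p + 1 : ℕ) : ℝ) := by
      have ha : ∀ t ∈ range p, 1 / (θ + ((t + 1 : ℕ) : ℝ)) + 1 / (1 - θ + ((t + 1 : ℕ) : ℝ)) ≤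
          ((t : ℝ) + 1)⁻¹ + (((t + 1 : ℕ) : ℝ) + 1)⁻¹ := by
        intro t _
        have ht0 : (0 : ℝ) ≤ t := Nat.cast_nonneg t
        push_cast
        have hA : 0 < θ + ((t : ℝ) + 1) := by positivity
        have hB : 0 < 1 - θ + ((t : ℝ) + 1) := by linarith
        have hC : 0 < (t : ℝ) + 1 := by positivity
        have hD : 0 < (t : ℝ) + 1 + 1 := by positivity
        have e1 : 1 / (θ + ((t : ℝ) + 1)) + 1 / (1 - θ + ((t : ℝ) + 1)) =
            (2 * (t : ℝ) + 3) / ((θ + ((t : ℝ) + 1)) * (1 - θ + ((t : ℝ) + 1))) := by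
          field_simp
          ring
        have e2 : ((t : ℝ) + 1)⁻¹ + ((t : ℝ) + 1 + 1)⁻¹ =
            (2 * (t : ℝ) + 3) / (((t : ℝ) + 1) * ((t : ℝ) + 1 + 1)) := by
          field_simp
          ring
        rw [e1, e2]
        apply div_le_div_of_nonneg_left (by positivity) (by positivity)
        nlinarith [mul_nonneg h.le (sub_nonneg.2 h1.le)]
      refine (Finset.sum_le_sum ha).trans ?_
      rw [Finset.sum_add_distrib]
      have hH : ∀ n : ℕ, ∑ t ∈ range n, ((t : ℝ) + 1)⁻¹ ≤ 1 + Real.log n := by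
        intro n
        have := harmonic_le_one_add_log n
        have e : ((harmonic n : ℚ) : ℝ) = ∑ t ∈ range n, ((t : ℝ) + 1)⁻¹ := by
          simp [harmonic]
        rw [e] at this
        exact this
      have h5 := hH (p + 1)
      have h6 := h5
      rw [Finset.sum_range_succ'] at h5
      rw [Finset.sum_range_succ] at h6
      have h7 : 0 < ((p : ℝ) + 1)⁻¹ := by positivity
      have h8 : ((((0 : ℕ) : ℝ)) + 1)⁻¹ = 1 := by norm_num
      rw [h8] at h5
      linarith
    have hfirst : Real.sin (Real.pi * θ) * (1 / (θ + ((0 : ℕ) : ℝ)) +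
        1 / (1 - θ + ((0 : ℕ) : ℝ))) ≤ 4 := by
      have h3 := fe_sin_le h0 h1.le
      have h4 : 0 < 1 - θ := by linarith
      have e : 1 / (θ + ((0 : ℕ) : ℝ)) + 1 / (1 - θ + ((0 : ℕ) : ℝ)) = 1 / (θ * (1 - θ)) := by
        simp only [Nat.cast_zero, add_zero]
        field_simp
        ring
      rw [e, mul_one_div, div_le_iff₀ (by positivity)]
      exact h3
    have hs1 := Real.sin_le_one (Real.pi * θ)
    have hlog2 : 0 ≤ Real.log ((p + 1 : ℕ) : ℝ) := hlog
    have hfin : Real.sin (Real.pi * θ) *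
        (∑ t ∈ range p, (1 / (θ + ((t + 1 : ℕ) : ℝ)) + 1 / (1 - θ + ((t + 1 : ℕ) : ℝ))) +
          (1 / (θ + ((0 : ℕ) : ℝ)) + 1 / (1 - θ + ((0 : ℕ) : ℝ)))) ≤
        5 + 2 * Real.log ((p + 1 : ℕ) : ℝ) := by
      rw [mul_add]
      have h9 : Real.sin (Real.pi * θ) *
          ∑ t ∈ range p, (1 / (θ + ((t + 1 : ℕ) : ℝ)) + 1 / (1 - θ + ((t + 1 : ℕ) : ℝ))) ≤
          1 * (1 + 2 * Real.log ((p + 1 : ℕ) : ℝ)) := by
        refine (mul_le_mul_of_nonneg_left hmain hsin).trans ?_
        exact mul_le_mul_of_nonneg_right hs1 (by linarith)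
      linarith
    calc _ ≤ ((p + 1 : ℕ) : ℝ) / Real.pi * (5 + 2 * Real.log ((p + 1 : ℕ) : ℝ)) :=
          mul_le_mul_of_nonneg_left hfin (by positivity)
      _ = _ := by ring

/-- the full sum, any shift -/
private theorem fe_full (q : ℕ) (hq : 1 ≤ q) (θ : ℝ) :
    ∑ t ∈ range q, F q ((θ + t) / q) ≤ q * ((5 + 2 * Real.log q) / Real.pi) := by
  have hq0 : (q : ℝ) ≠ 0 := by
    have : (0 : ℝ) < q := by exact_mod_cast hq
    exact this.ne'
  have hper : Function.Periodic (fun θ : ℝ => ∑ t ∈ range q, F q ((θ + t) / q)) 1 := by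
    intro θ
    have h1 := Finset.sum_range_succ (fun t : ℕ => F q ((θ + t) / q)) q
    have h2 := Finset.sum_range_succ' (fun t : ℕ => F q ((θ + t) / q)) q
    have h3 : F q ((θ + (q : ℝ)) / q) = F q ((θ + ((0 : ℕ) : ℝ)) / q) := by
      have : (θ + (q : ℝ)) / q = (θ + ((0 : ℕ) : ℝ)) / q + 1 := by
        rw [Nat.cast_zero, add_zero]
        field_simp
      rw [this, F_periodic]
    have h4 : ∀ t ∈ range q, F q ((θ + 1 + (t : ℝ)) / q) = F q ((θ + ((t + 1 : ℕ) : ℝ)) / q) := by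
      intro t _
      push_cast
      ring_nf
    show ∑ t ∈ range q, F q ((θ + 1 + (t : ℝ)) / q) = ∑ t ∈ range q, F q ((θ + t) / q)
    rw [Finset.sum_congr rfl h4]
    linarith
  have h := (hper.int_mul ⌊θ⌋).sub_eq θ
  have h2 := fe_full_aux q hq (Int.fract θ) (Int.fract_nonneg θ) (Int.fract_lt_one θ)
  have h3 : θ - (⌊θ⌋ : ℝ) * 1 = Int.fract θ := by
    rw [mul_one]; rfl
  rw [h3] at h
  have h4 : ∑ t ∈ range q, F q ((Int.fract θ + t) / q) = ∑ t ∈ range q, F q ((θ + t) / q) := h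
  rw [h4] at h2
  exact h2

/-- **The `L¹` norm for any set of digits.** -/
theorem l1_le (q : ℕ) (hq : 2 ≤ q) (D : Finset ℕ) (hD : D ⊆ Finset.range q) (θ : ℝ) :
    ∑ t ∈ Finset.range q, ‖∑ a ∈ D,
      Complex.exp (2 * Real.pi * Complex.I * ((a : ℂ) * ((θ : ℂ) + (t : ℂ)) / (q : ℂ)))‖ ≤
      q * (((q : ℝ) - D.card) + (5 + 2 * Real.log q) / Real.pi) := by
  have hF := fe_full q (by omega) θ
  have hterm : ∀ t ∈ Finset.range q, ‖∑ a ∈ D,
      Complex.exp (2 * Real.pi * Complex.I * ((a : ℂ) * ((θ : ℂ) + (t : ℂ)) / (q : ℂ)))‖ ≤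
      F q ((θ + t) / q) + ((q : ℝ) - D.card) := by
    intro t _
    have e : F q ((θ + t) / q) = ‖∑ a ∈ range q,
        Complex.exp (2 * Real.pi * Complex.I * ((a : ℂ) * ((θ : ℂ) + (t : ℂ)) / (q : ℂ)))‖ := by
      unfold F
      congr 1
      apply Finset.sum_congr rfl
      intro a _
      congr 1
      push_cast
      ring
    rw [e]
    have h1 := Finset.sum_sdiff (f := fun a : ℕ =>
      Complex.exp (2 * Real.pi * Complex.I * ((a : ℂ) * ((θ : ℂ) + (t : ℂ)) / (q : ℂ)))) hD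
    have h2 : ∑ a ∈ D, Complex.exp (2 * Real.pi * Complex.I *
        ((a : ℂ) * ((θ : ℂ) + (t : ℂ)) / (q : ℂ))) =
        ∑ a ∈ range q, Complex.exp (2 * Real.pi * Complex.I *
          ((a : ℂ) * ((θ : ℂ) + (t : ℂ)) / (q : ℂ))) -
        ∑ a ∈ range q \ D, Complex.exp (2 * Real.pi * Complex.I *
          ((a : ℂ) * ((θ : ℂ) + (t : ℂ)) / (q : ℂ))) := by
      rw [← h1]; ring
    rw [h2]
    refine (norm_sub_le _ _).trans ?_
    apply add_le_add_right
    refine (norm_sum_le _ _).trans ?_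
    have h3 : ∀ a ∈ range q \ D, ‖Complex.exp (2 * Real.pi * Complex.I *
        ((a : ℂ) * ((θ : ℂ) + (t : ℂ)) / (q : ℂ)))‖ ≤ 1 := by
      intro a _
      have e2 : (2 * Real.pi * Complex.I * ((a : ℂ) * ((θ : ℂ) + (t : ℂ)) / (q : ℂ)) : ℂ) =
          ((2 * Real.pi * (a * (θ + t) / q) : ℝ) : ℂ) * Complex.I := by
        push_cast; ring
      rw [e2, Complex.norm_exp_ofReal_mul_I]
    refine (Finset.sum_le_sum h3).trans ?_
    simp only [Finset.sum_const, nsmul_eq_mul, mul_one]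
    rw [Finset.card_sdiff_of_subset hD, Finset.card_range,
      Nat.cast_sub (by simpa using Finset.card_le_card hD)]
  refine (Finset.sum_le_sum hterm).trans ?_
  rw [Finset.sum_add_distrib]
  simp only [Finset.sum_const, Finset.card_range, nsmul_eq_mul]
  linarith

end Pool.Agent.DP4
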