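import Mathlib

/-! The `L¹` norm of the exponential sum over a nonempty set of digits is at least `q`. -/

set_option autoImplicit false

namespace Pool.Agent.DP4

open Finset

theorem q_le_L (q : ℕ) (hq : 0 < q) (D : Finset ℕ) (hD : D ⊆ range q) (hne : D.Nonempty) (L : ℝ)
    (hL : ∀ θ : ℝ, ∑ t ∈ range q, ‖∑ a ∈ D, Complex.exp (2 * Real.pi * Complex.I *
      ((a : ℂ) * ((θ : ℂ) + (t : ℂ)) / (q : ℂ)))‖ ≤ L) : (q : ℝ) ≤ L := by
  obtain ⟨b, hb⟩ := hne
  have hbq : b < q := mem_range.1 (hD hb)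
  have hq' : (q : ℂ) ≠ 0 := by exact_mod_cast hq.ne'
  have h0 := hL 0
  refine le_trans ?_ h0
  have h1 : ∀ t ∈ range q, ‖∑ a ∈ D, Complex.exp (2 * Real.pi * Complex.I *
      ((a : ℂ) * (((0 : ℝ) : ℂ) + (t : ℂ)) / (q : ℂ)))‖ =
      ‖∑ a ∈ D, Complex.exp (2 * Real.pi * Complex.I * (((a : ℂ) - b) / q)) ^ t‖ := by
    intro t _
    have e : ∑ a ∈ D, Complex.exp (2 * Real.pi * Complex.I * (((a : ℂ) - b) / q)) ^ t =
        Complex.exp (((-(2 * Real.pi * (b * t / q)) : ℝ) : ℂ) * Complex.I) *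
        ∑ a ∈ D, Complex.exp (2 * Real.pi * Complex.I *
          ((a : ℂ) * (((0 : ℝ) : ℂ) + (t : ℂ)) / (q : ℂ))) := by
      rw [mul_sum]
      refine sum_congr rfl fun a _ => ?_
      rw [← Complex.exp_nat_mul, ← Complex.exp_add]
      congr 1
      push_cast
      field_simp
      ring
    rw [e, norm_mul, Complex.norm_exp_ofReal_mul_I, one_mul]
  rw [sum_congr rfl h1]
  refine le_trans ?_ (norm_sum_le _ _)
  rw [sum_comm]
  have h2 : ∀ a ∈ D, a ≠ b → ∑ t ∈ range q,
      Complex.exp (2 * Real.pi * Complex.I * (((a : ℂ) - b) / q)) ^ t = 0 := by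
    intro a ha hab
    have haq : a < q := mem_range.1 (hD ha)
    set z := Complex.exp (2 * Real.pi * Complex.I * (((a : ℂ) - b) / q)) with hz
    have hz1 : z ≠ 1 := by
      intro h
      rw [hz, Complex.exp_eq_one_iff] at h
      obtain ⟨n, hn⟩ := h
      have hpi : (2 * Real.pi * Complex.I : ℂ) ≠ 0 := by
        simp [Real.pi_ne_zero, Complex.I_ne_zero]
      have h3 : ((a : ℂ) - b) / q = n := by
        apply mul_left_cancel₀ hpi
        rw [hn]
        ring
      rw [div_eq_iff hq'] at h3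
      have h4 : ((a : ℤ) - b) = n * q := by exact_mod_cast h3
      have h5 : (q : ℤ) ∣ (a : ℤ) - b := ⟨n, by rw [h4]; ring⟩
      have h6 : |(a : ℤ) - b| < q := by
        rw [abs_lt]
        constructor <;> omega
      have h7 := Int.eq_zero_of_abs_lt_dvd h5 h6
      exact hab (by omega)
    have hzq : z ^ q = 1 := by
      rw [hz, ← Complex.exp_nat_mul, Complex.exp_eq_one_iff]
      refine ⟨(a : ℤ) - b, ?_⟩
      push_cast
      field_simp
    have h8 := mul_neg_geom_sum z q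
    rw [hzq, sub_self] at h8
    rcases mul_eq_zero.1 h8 with h | h
    · exact absurd (sub_eq_zero.1 h).symm hz1
    · exact h
  rw [sum_eq_single_of_mem b hb (fun a ha hab => h2 a ha hab)]
  simp

end Pool.Agent.DP4
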