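import Mathlib
import Pool.Agent.DP2.ED
import Pool.Agent.DP3.TD
import Pool.Agent.DP4.FG
import Pool.Agent.DP4.FD
import Pool.Agent.DP4.FE

/-! The assembly: the three bounds together. -/

set_option autoImplicit false

namespace Pool.Agent.DP4

open Finset Pool.Agent.DigitPowers

/-- the count is at most `C * N ^ γ` for `γ = 1 - 2 α (1 - α) / m`,
`m = min (min (α + 1/2) (log_q L)) (log_q L₂)`. -/
theorem missing_count_min (p q : ℕ) (hp : 2 ≤ p) (hq : q.Prime) (hq3 : 3 ≤ q) (hpq : ¬ q ∣ p)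
    (D : Finset ℕ) (hD : D ⊆ range q) (hD2 : q ≤ D.card ^ 2) (L L₂ : ℝ)
    (hL : ∀ θ : ℝ, ∑ t ∈ range q, ‖∑ a ∈ D, Complex.exp (2 * Real.pi * Complex.I *
      ((a : ℂ) * ((θ : ℂ) + (t : ℂ)) / (q : ℂ)))‖ ≤ L)
    (hL₂ : ∀ θ : ℝ, ∑ t ∈ range q, ‖∑ a ∈ D, Complex.exp (2 * Real.pi * Complex.I *
      ((a : ℂ) * ((θ : ℂ) + (t : ℂ)) / (q : ℂ)))‖ ≤ L₂) :
    ∃ C : ℝ, ∀ N : ℕ, (((range N).filter (fun n => (Nat.digits q (p ^ n)).toFinset ⊆ D)).card : ℝ) ≤
      C * (N : ℝ) ^ (1 - 2 * Real.logb q D.card * (1 - Real.logb q D.card) /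
        min (min (Real.logb q D.card + 1 / 2) (Real.logb q L)) (Real.logb q L₂)) := by
  have hq1 : (1 : ℝ) < q := by exact_mod_cast (by omega : 1 < q)
  have hd2 : 1 < D.card := by
    by_contra hcon
    push Not at hcon
    have : D.card ^ 2 ≤ 1 ^ 2 := Nat.pow_le_pow_left hcon 2
    omega
  have hpos : ∀ M : ℝ, (∀ θ : ℝ, ∑ t ∈ range q, ‖∑ a ∈ D, Complex.exp (2 * Real.pi * Complex.I *
      ((a : ℂ) * ((θ : ℂ) + (t : ℂ)) / (q : ℂ)))‖ ≤ M) → 0 < M := by
    intro M hM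
    have h0 := hM 0
    have h1 : ‖∑ a ∈ D, Complex.exp (2 * Real.pi * Complex.I *
      ((a : ℂ) * (((0 : ℝ) : ℂ) + ((0 : ℕ) : ℂ)) / (q : ℂ)))‖ ≤ M :=
      (single_le_sum (f := fun t : ℕ => ‖∑ a ∈ D, Complex.exp (2 * Real.pi * Complex.I *
      ((a : ℂ) * (((0 : ℝ) : ℂ) + (t : ℂ)) / (q : ℂ)))‖) (fun _ _ => norm_nonneg _)
      (mem_range.2 (by omega : 0 < q))).trans h0
    have h2 : ∑ a ∈ D, Complex.exp (2 * Real.pi * Complex.I *
      ((a : ℂ) * (((0 : ℝ) : ℂ) + ((0 : ℕ) : ℂ)) / (q : ℂ))) = (D.card : ℂ) := by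
      simp
    rw [h2, Complex.norm_natCast] at h1
    have h3 : (0 : ℝ) < D.card := by exact_mod_cast (by omega : 0 < D.card)
    linarith
  have hLp := hpos L hL
  have hL₂p := hpos L₂ hL₂
  have hmin : Real.logb q (min L L₂) = min (Real.logb q L) (Real.logb q L₂) := by
    rcases le_total L L₂ with h | h
    · rw [min_eq_left h, min_eq_left (Real.logb_le_logb_of_le hq1 hLp h)]
    · rw [min_eq_right h, min_eq_right (Real.logb_le_logb_of_le hq1 hL₂p h)]
  rw [min_assoc, ← hmin]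
  have hLm : ∀ θ : ℝ, ∑ t ∈ range q, ‖∑ a ∈ D, Complex.exp (2 * Real.pi * Complex.I *
      ((a : ℂ) * ((θ : ℂ) + (t : ℂ)) / (q : ℂ)))‖ ≤ min L L₂ := fun θ =>
    le_min (hL θ) (hL₂ θ)
  rcases le_total (Real.logb q (min L L₂)) (Real.logb q D.card + 1 / 2) with h | h
  · rw [min_eq_right h]
    have hd0 : (0 : ℝ) < D.card := by exact_mod_cast (by omega : 0 < D.card)
    have hq0 : (0 : ℝ) < q := by linarith
    have hne : D.Nonempty := card_pos.1 (by omega)
    have hqL := q_le_L q (by omega) D hD hne _ hLm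
    have hmp : 0 < min L L₂ := lt_min hLp hL₂p
    have hhalf : (1 : ℝ) ≤ Real.logb q D.card * 2 := by
      have h3 : Real.logb q ((D.card : ℝ) ^ 2) = Real.logb q D.card * 2 := by
        rw [Real.logb_pow]
        ring
      rw [← h3, Real.le_logb_iff_rpow_le hq1 (by positivity), Real.rpow_one]
      exact_mod_cast hD2
    have hLd : min L L₂ ≤ (D.card : ℝ) ^ 2 := by
      have h3 : Real.logb q (min L L₂) ≤ Real.logb q ((D.card : ℝ) ^ 2) := by
        rw [Real.logb_pow]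
        push_cast
        linarith
      exact (Real.logb_le_logb hq1 hmp (by positivity)).1 h3
    exact missing_count_L1 p q hp hq hq3 hpq D hD hD2 _ hqL hLd hLm
  · rw [min_eq_left h]
    have hDq : D.card ≤ q := by
      have := card_le_card hD
      rwa [card_range] at this
    obtain ⟨C, hC⟩ := Pool.Agent.DP2.missing_count_energy p q hp hq hq3 hpq D hDq hD2
    refine ⟨C, fun N => ?_⟩
    have h1 := hC N
    have ha : 0 < Real.logb q D.card := Real.logb_pos hq1 (by exact_mod_cast hd2)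
    have e : (4 * Real.logb q D.card ^ 2 - 2 * Real.logb q D.card + 1) /
        (2 * Real.logb q D.card + 1) = 1 - 2 * Real.logb q D.card * (1 - Real.logb q D.card) /
        (Real.logb q D.card + 1 / 2) := by
      field_simp
      ring
    rw [← e]
    exact h1

end Pool.Agent.DP4
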